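import Pool.Agent.TH282.RP.FinalP

/-!
# Finiteness of maximal Cohen-Macaulay classes in the class group, characteristic p
-/

set_option autoImplicit false

namespace Pool.Agent.Results.MP_cbb711_ag.FiniteMCMClassesCharP

universe u

/-- For every complete Noetherian local Cohen-Macaulay ring `R` of prime characteristic `p` with perfect
residue field whose localizations at primes of height at most 2 are regular, only finitely many isomorphism
classes of nonzero ideals of `R` are maximal Cohen-Macaulay modules. -/
theorem result :
    ∀ (p : ℕ) [Fact p.Prime] (R : Type u) [CommRing R] [IsLocalRing R] [IsNoetherianRing R] [CharP R p]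
      [PerfectField (IsLocalRing.ResidueField R)],
      IsAdicComplete (IsLocalRing.maximalIdeal R) R →
      (∃ rs : List R, (∀ r ∈ rs, r ∈ IsLocalRing.maximalIdeal R) ∧
          RingTheory.Sequence.IsRegular R rs ∧
          (rs.length : WithBot ℕ∞) = ringKrullDim R) →
      (∀ (P : Ideal R) [P.IsPrime], P.height ≤ 2 →
          ∃ s : Finset (Localization.AtPrime P),
            Ideal.span (s : Set (Localization.AtPrime P)) =
                IsLocalRing.maximalIdeal (Localization.AtPrime P) ∧
              (s.card : WithBot ℕ∞) ≤ ringKrullDim (Localization.AtPrime P)) →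
      ∃ (n : ℕ) (J : Fin n → Ideal R),
        ∀ I : Ideal R, I ≠ ⊥ →
          (∃ rs : List R, (∀ r ∈ rs, r ∈ IsLocalRing.maximalIdeal R) ∧
              RingTheory.Sequence.IsRegular (↥I) rs ∧
              (rs.length : WithBot ℕ∞) = ringKrullDim R) →
          ∃ j : Fin n, Nonempty (↥I ≃ₗ[R] ↥(J j)) := by
  intro p _ R _ _ _ _ _ hc hCM hR2
  exact Pool.Agent.TH282.RE.finite_mcm_ideals_p p hc hCM fun P _ hP =>
    Pool.Agent.TH282.RE.regular_of_finset (hR2 P hP)

end Pool.Agent.Results.MP_cbb711_ag.FiniteMCMClassesCharP
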