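import Pool.Agent.TH282.RE.Final3

/-!
# Finiteness of maximal Cohen-Macaulay classes in the class group, characteristic zero
-/

set_option autoImplicit false

namespace Pool.Agent.Results.MP_cbb711_ag.FiniteMCMClassesCharZero

universe u

/-- For every complete Noetherian local Cohen-Macaulay ring `R` containing the rational numbers whose
localizations at primes of height at most 2 are regular, only finitely many isomorphism classes of nonzero
ideals of `R` are maximal Cohen-Macaulay modules. -/
theorem result :
    ∀ (R : Type u) [CommRing R] [IsLocalRing R] [IsNoetherianRing R] [Algebra ℚ R],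
      IsAdicComplete (IsLocalRing.maximalIdeal R) R →
      (∃ rs : List R, (∀ r ∈ rs, r ∈ IsLocalRing.maximalIdeal R) ∧
          RingTheory.Sequence.IsRegular R rs ∧
          (rs.length : WithBot ℕ∞) = ringKrullDim R) →
      (∀ (p : Ideal R) [p.IsPrime], p.height ≤ 2 →
          ∃ s : Finset (Localization.AtPrime p),
            Ideal.span (s : Set (Localization.AtPrime p)) =
                IsLocalRing.maximalIdeal (Localization.AtPrime p) ∧
              (s.card : WithBot ℕ∞) ≤ ringKrullDim (Localization.AtPrime p)) →
      ∃ (n : ℕ) (J : Fin n → Ideal R),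
        ∀ I : Ideal R, I ≠ ⊥ →
          (∃ rs : List R, (∀ r ∈ rs, r ∈ IsLocalRing.maximalIdeal R) ∧
              RingTheory.Sequence.IsRegular (↥I) rs ∧
              (rs.length : WithBot ℕ∞) = ringKrullDim R) →
          ∃ j : Fin n, Nonempty (↥I ≃ₗ[R] ↥(J j)) := by
  intro R _ _ _ _ hc hCM hR2
  exact Pool.Agent.TH282.RE.finite_mcm_ideals_char_zero hc hCM fun P _ hP =>
    Pool.Agent.TH282.RE.regular_of_finset (hR2 P hP)

end Pool.Agent.Results.MP_cbb711_ag.FiniteMCMClassesCharZero
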