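import Pool.Agent.TH282.RP.LimE

/-!
# Finiteness of maximal Cohen-Macaulay classes in the class group, finite residue field
-/

set_option autoImplicit false

namespace Pool.Agent.Results.MP_cbb711_ag.FiniteMCMClassesFiniteResidue

universe u

/-- For every complete Noetherian local Cohen-Macaulay ring `R` with finite residue field, of any
characteristic (equal or mixed), whose localizations at primes of height at most 2 are regular, only finitely
many isomorphism classes of nonzero ideals of `R` are maximal Cohen-Macaulay modules. -/
theorem result :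
    ∀ (R : Type u) [CommRing R] [IsLocalRing R] [IsNoetherianRing R]
      [Finite (IsLocalRing.ResidueField R)],
      IsAdicComplete (IsLocalRing.maximalIdeal R) R →
      (∃ rs : List R, (∀ r ∈ rs, r ∈ IsLocalRing.maximalIdeal R) ∧
          RingTheory.Sequence.IsRegular R rs ∧
          (rs.length : WithBot ℕ∞) = ringKrullDim R) →
      (∀ (P : Ideal R) [P.IsPrime], P.height ≤ 2 →
          ∃ s : Finset (Localization.AtPrime P),
            Ideal.span (s : Set (Localization.AtPrime P)) =
                IsLocalRing.maximalIdeal (Localization.AtPrime P) ∧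
              (s.card : WithBot ℕ∞) ≤ ringKrullDim (Localization.AtPrime P)) →
      ∃ (n : ℕ) (J : Fin n → Ideal R),
        ∀ I : Ideal R, I ≠ ⊥ →
          (∃ rs : List R, (∀ r ∈ rs, r ∈ IsLocalRing.maximalIdeal R) ∧
              RingTheory.Sequence.IsRegular (↥I) rs ∧
              (rs.length : WithBot ℕ∞) = ringKrullDim R) →
          ∃ j : Fin n, Nonempty (↥I ≃ₗ[R] ↥(J j)) := by
  intro R _ _ _ _ hc hCM hR2
  exact Pool.Agent.TH282.RE.finite_mcm_ideals_finite_residue hc hCM fun P _ hP =>
    Pool.Agent.TH282.RE.regular_of_finset (hR2 P hP)

end Pool.Agent.Results.MP_cbb711_ag.FiniteMCMClassesFiniteResidue
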